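import Mathlib
import Pool.Agent.Q80.ZK.K8

/-!
# The zeros of `F(x,k) = ∫_0^{arccos(x-1)} sin(k arccos(x - cos λ)) dλ`

For every integer `k ≥ 1` the function `x ↦ F(x,k)` has exactly `k-1` zeros in `(0,2)`, and all
of them are simple.
-/

namespace Pool.Agent.Results.MP_c729a8_an.ZeroCount

/-- The function of the problem, `F(x,k) = ∫_0^{arccos(x-1)} sin(k arccos(x - cos λ)) dλ`. -/
noncomputable def F (x : ℝ) (k : ℕ) : ℝ :=
  ∫ l in (0 : ℝ)..(Real.arccos (x - 1)), Real.sin (k * Real.arccos (x - Real.cos l))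

/-- For every integer `k ≥ 1` the function `x ↦ F(x,k)` has exactly `k-1` zeros in the open
interval `(0,2)`, and at each zero it is differentiable with nonzero derivative. -/
theorem result (k : ℕ) (hk : 1 ≤ k) :
    {x : ℝ | x ∈ Set.Ioo (0 : ℝ) 2 ∧ F x k = 0}.encard = ((k - 1 : ℕ) : ℕ∞) ∧
      ∀ x ∈ Set.Ioo (0 : ℝ) 2, F x k = 0 →
        DifferentiableAt ℝ (fun t => F t k) x ∧ deriv (fun t => F t k) x ≠ 0 := by
  obtain ⟨h1, h2⟩ := Pool.Agent.Q80.ZK.main k hk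
  refine ⟨h1, fun x hx hx0 => ?_⟩
  obtain ⟨d, hd, hd'⟩ := h2 x hx hx0
  have hd'' : HasDerivAt (fun t => F t k) d x := hd'
  exact ⟨hd''.differentiableAt, by rw [hd''.deriv]; exact hd⟩

end Pool.Agent.Results.MP_c729a8_an.ZeroCount
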